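import Pool.Agent.K9h35.GL.Variety

/-!
# Farrell–Jones groups of matrices of degree two over polynomial rings in several variables

`C` is any class of groups with the closure properties `ClosedE C`, all of which are known for the
class of the groups that satisfy the A-theoretic Farrell–Jones Conjecture with coefficients and
finite wreath products.
-/

set_option autoImplicit false

namespace Pool.Agent.K9h35.Full.PolynomialMatrixGroups

open WithZero
open Pool.Agent.Y110.FJ (ClosedE)

/-- Let `C` be a class of groups with the closure properties `ClosedE C`.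

1. Let `v` be a discrete valuation of a field `F` (with an element of value `exp (-1)`) and `ρ` a
   homomorphism from a group `Γ` to `GL_2(F)`. If for each integer `c` there is a homomorphism from
   `Γ` to a group in `C` whose kernel contains no `γ ≠ 1` such that `det (ρ γ)` has the value `1` and
   all entries of `ρ γ` have values at most `exp c`, then `Γ` is in `C`.
2. Let `A` be a commutative domain with `GL_2(A)` in `C`. Then `GL_2(A[X_i, i ∈ I])` is in `C` for
   each set `I` of variables.
3. `GL_2(ℤ[X_i, i ∈ I])` is in `C` for each set `I`.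
4. `GL_2(K[X_i, i ∈ I])` is in `C` for each algebraic extension `K` of a finite field and each `I`.
5. Let `R` be a domain which is finitely generated as an algebra over an algebraically closed field
   `k` with `GL_2(k)` in `C`, let `i` be a homomorphism from `R` to a field `F` with a discrete
   valuation `v` such that no nonzero element of `R` has a value less than `1` and such that for each
   `c` the elements of `R` of value at most `exp c` are contained in a finite-dimensional subspace.
   Then `GL_2(R)` is in `C`. -/
theorem full (C : ∀ (G : Type) [Group G], Prop) (hC : ClosedE C) :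
    (∀ (F : Type) [Field F] (v : Valuation F ℤᵐ⁰) (π : F), v π = exp (-1) →
      ∀ (Γ : Type) [Group Γ] (ρ : Γ →* GL (Fin 2) F),
        (∀ c : ℤ, ∃ (P : Type) (_ : Group P) (f : Γ →* P), C P ∧
          ∀ γ : Γ, v ((ρ γ : GL (Fin 2) F) : Matrix (Fin 2) (Fin 2) F).det = 1 →
            (∀ j k, v (((ρ γ : GL (Fin 2) F) : Matrix (Fin 2) (Fin 2) F) j k) ≤ exp c) →
            f γ = 1 → γ = 1) → C Γ) ∧
    (∀ (A : Type) [CommRing A] [IsDomain A], C (GL (Fin 2) A) →
      ∀ I : Type, C (GL (Fin 2) (MvPolynomial I A))) ∧
    (∀ I : Type, C (GL (Fin 2) (MvPolynomial I ℤ))) ∧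
    (∀ (k K : Type) [Field k] [Finite k] [Field K] [Algebra k K] [Algebra.IsAlgebraic k K] (I : Type),
      C (GL (Fin 2) (MvPolynomial I K))) ∧
    (∀ (F : Type) [Field F] (v : Valuation F ℤᵐ⁰) (π : F), v π = exp (-1) →
      ∀ (k R : Type) [Field k] [IsAlgClosed k] [CommRing R] [IsDomain R] [Algebra k R]
        [Algebra.FiniteType k R] (i : R →+* F), (∀ r : R, r ≠ 0 → 1 ≤ v (i r)) →
        (∀ c : ℤ, ∃ W : Submodule k R, FiniteDimensional k W ∧ ∀ r : R, v (i r) ≤ exp c → r ∈ W) →
        C (GL (Fin 2) k) → C (GL (Fin 2) R)) := by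
  refine ⟨?_, ?_, ?_, ?_, ?_⟩
  · intro F _ v π hπ Γ _ ρ h
    exact Pool.Agent.K9h35.GL.criterion_det hC v π hπ ρ h
  · intro A _ _ hA I
    exact Pool.Agent.K9h35.GL.mvpoly_dom hC A hA I
  · intro I
    exact Pool.Agent.K9h35.GL.mvpoly_dom hC ℤ (Pool.Agent.K9h35.GL.gl_int hC) I
  · intro k K _ _ _ _ _ I
    exact Pool.Agent.K9h35.GL.mvpoly_dom hC K (Pool.Agent.K9h35.GL.gl_alg hC k K) I
  · intro F _ v π hπ k R _ _ _ _ _ _ i hR hfin hk
    exact Pool.Agent.K9h35.GL.variety hC v π hπ k R i hR hfin hk

end Pool.Agent.K9h35.Full.PolynomialMatrixGroups
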