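import Pool.Agent.K9h35.SQ.Ring2

/-!
# Groups acting with finite stabilizers on simply connected complexes of dimension two

`C` is any class of groups with the closure properties `Closed C` which contains the groups acting
properly and cocompactly on simply connected square complexes of nonpositive curvature (these are
CAT(0) groups); all this is known for the class of the groups that satisfy the A-theoretic
Farrell–Jones Conjecture with coefficients and finite wreath products (Enkelmann, Lück, Pieper,
Ullmann, Winges).

The actions considered here are not cocompact, and the complexes are not locally finite.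
-/

set_option autoImplicit false

namespace Pool.Agent.K9h35.Full.TwoDimensionalActions

open WithZero
open Pool.Agent.Y462.SS (Closed)
open Pool.Agent.K9h35.SQ (Cx IsImmersion SimplyConnected Acts Geometric IsNPCSquare HasCAT0Square
  IsFiniteAtInfinity)

/-- The polynomial ring over a field without variables has no prime elements. -/
theorem pos_of_prime {k : Type} [Field k] {n : ℕ} {f : MvPolynomial (Fin n) k} (hf : Prime f) :
    0 < n := by
  rcases Nat.eq_zero_or_pos n with h | h
  · subst h
    exfalso
    have h1 : MvPolynomial.isEmptyAlgEquiv k (Fin 0) f ≠ 0 := fun h0 =>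
      hf.ne_zero ((MvPolynomial.isEmptyAlgEquiv k (Fin 0)).injective (by rw [h0, map_zero]))
    have h2 : IsUnit (MvPolynomial.isEmptyAlgEquiv k (Fin 0) f) := isUnit_iff_ne_zero.2 h1
    exact hf.not_isUnit ((MulEquiv.isUnit_map (MvPolynomial.isEmptyAlgEquiv k (Fin 0))).1 h2)
  · exact h

/-- Let `C` be a class of groups with the closure properties `Closed C` (only the closure under
directed colimits is used for 1, 2 and 3).

1. Let `P` be a class of complexes of dimension two which contains with `X` all complexes `Y` with an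
   immersion (a locally injective combinatorial map) `Y → X`; for instance complexes of nonpositive
   curvature, with cells of given shapes. If `C` contains the groups acting properly and cocompactly
   on simply connected complexes in `P`, then it contains all groups acting with finite stabilizers
   on simply connected complexes in `P`.

Suppose that `C` contains the groups acting properly and cocompactly on simply connected square
complexes of nonpositive curvature.

2. All groups acting with finite stabilizers on a simply connected square complex of nonpositive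
   curvature are in `C`.
3. All groups acting on the product of two trees with finite stabilizers are in `C`.
4. Let `v₁`, `v₂` be discrete valuations of fields `F₁`, `F₂`. A group `Γ` with homomorphisms
   `ρᵢ : Γ → GL_2(Fᵢ)` such that all determinants have the value one is in `C` if for each `c` there
   are only finitely many `γ` such that all entries of `ρ₁ γ` and `ρ₂ γ` have values at most `exp c`.
5. Let `A` be a domain with a discrete valuation `v` such that the nonzero elements have values at
   least one, and only finitely many have values at most `exp c`, for each `c` (`A` is a ring of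
   functions on a variety over a finite field with irreducible boundary at infinity). Then `GL_2(A)`
   and, for each prime element `f` of `A`, `GL_2(A[1/f])` are in `C`.
6. In particular `GL_2(k[t_1, ..., t_n][1/f])` is in `C` for each finite field `k`, each `n` and
   each irreducible polynomial `f`. -/
theorem full (C : ∀ (G : Type) [Group G], Prop) (hC : Closed C) :
    (∀ P : ∀ V : Type, Cx V → Prop,
      (∀ (V W : Type) (Y : Cx W) (X : Cx V) (φ : W → V), IsImmersion Y X φ → P V X → P W Y) →
      (∀ (V : Type) (X : Cx V) (G : Type) [Group G] [MulAction G V], P V X →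
        SimplyConnected X → Acts G X → Geometric G X → C G) →
      ∀ (V : Type) (X : Cx V) (Γ : Type) [Group Γ] [MulAction Γ V], P V X →
        SimplyConnected X → Acts Γ X → (∀ v : V, {g : Γ | g • v = v}.Finite) → C Γ) ∧
    (HasCAT0Square C →
      (∀ (V : Type) (X : Cx V) (Γ : Type) [Group Γ] [MulAction Γ V], IsNPCSquare X →
        SimplyConnected X → Acts Γ X → (∀ v : V, {g : Γ | g • v = v}.Finite) → C Γ) ∧
      (∀ (V₁ V₂ : Type) (T₁ : SimpleGraph V₁) (T₂ : SimpleGraph V₂), T₁.IsTree → T₂.IsTree →
        ∀ (Γ : Type) [Group Γ] [MulAction Γ V₁] [MulAction Γ V₂],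
          (∀ (g : Γ) (u v : V₁), T₁.Adj u v → T₁.Adj (g • u) (g • v)) →
          (∀ (g : Γ) (u v : V₂), T₂.Adj u v → T₂.Adj (g • u) (g • v)) →
          (∀ (u : V₁) (v : V₂), {g : Γ | g • u = u ∧ g • v = v}.Finite) → C Γ) ∧
      (∀ (F₁ F₂ : Type) [Field F₁] [Field F₂] (v₁ : Valuation F₁ ℤᵐ⁰) (v₂ : Valuation F₂ ℤᵐ⁰)
        (π₁ : F₁) (π₂ : F₂), v₁ π₁ = exp (-1) → v₂ π₂ = exp (-1) →
        ∀ (Γ : Type) [Group Γ] (ρ₁ : Γ →* GL (Fin 2) F₁) (ρ₂ : Γ →* GL (Fin 2) F₂),
          (∀ γ : Γ, v₁ ((ρ₁ γ : GL (Fin 2) F₁) : Matrix (Fin 2) (Fin 2) F₁).det = 1) →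
          (∀ γ : Γ, v₂ ((ρ₂ γ : GL (Fin 2) F₂) : Matrix (Fin 2) (Fin 2) F₂).det = 1) →
          (∀ c : ℤ, {γ : Γ |
            (∀ j k, v₁ (((ρ₁ γ : GL (Fin 2) F₁) : Matrix (Fin 2) (Fin 2) F₁) j k) ≤ exp c) ∧
            ∀ j k, v₂ (((ρ₂ γ : GL (Fin 2) F₂) : Matrix (Fin 2) (Fin 2) F₂) j k) ≤ exp c}.Finite) →
          C Γ) ∧
      (∀ (A : Type) [CommRing A] [IsDomain A] (v : Valuation A ℤᵐ⁰), IsFiniteAtInfinity v →
        C (GL (Fin 2) A) ∧
        ∀ f : A, Prime f → ∀ (R : Type) [CommRing R] [Algebra A R] [IsLocalization.Away f R],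
          C (GL (Fin 2) R)) ∧
      (∀ (k : Type) [Field k] [Finite k] (n : ℕ) (f : MvPolynomial (Fin n) k), Irreducible f →
        ∀ (R : Type) [CommRing R] [Algebra (MvPolynomial (Fin n) k) R] [IsLocalization.Away f R],
          C (GL (Fin 2) R))) := by
  refine ⟨?_, fun hcat => ⟨?_, ?_, ?_, ?_, ?_⟩⟩
  · intro P hP hgeo V X Γ _ _ hX hsc hact hst
    exact Pool.Agent.K9h35.SQ.colim_main hC P hP hgeo X hX hsc hact hst
  · intro V X Γ _ _ hX hsc hact hst
    exact Pool.Agent.K9h35.SQ.square_main hC hcat X Γ hX hsc hact hst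
  · intro V₁ V₂ T₁ T₂ h1 h2 Γ _ _ _ ha1 ha2 hst
    exact Pool.Agent.K9h35.SQ.two_trees hC hcat T₁ T₂ h1 h2 Γ ha1 ha2 hst
  · intro F₁ F₂ _ _ v₁ v₂ π₁ π₂ hπ₁ hπ₂ Γ _ ρ₁ ρ₂ hd₁ hd₂ hfin
    exact Pool.Agent.K9h35.SQ.two_valuations hC hcat v₁ v₂ π₁ hπ₁ π₂ hπ₂ Γ ρ₁ ρ₂ hd₁ hd₂ hfin
  · intro A _ _ v hv
    refine ⟨Pool.Agent.K9h35.SQ.gl_infinity hC hcat A v hv, ?_⟩
    intro f hf R _ _ _
    exact Pool.Agent.K9h35.SQ.gl_away hC hcat hv hf
  · intro k _ _ n f hf R _ _ _
    have hp : Prime f := UniqueFactorizationMonoid.irreducible_iff_prime.1 hf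
    exact Pool.Agent.K9h35.SQ.gl_away hC hcat
      (Pool.Agent.K9h35.SQ.degVal_finite k n (pos_of_prime hp)) hp

end Pool.Agent.K9h35.Full.TwoDimensionalActions
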