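import Pool.Agent.K9h35.TB.Poly
import Pool.Agent.K9h35.TB.Gars

/-!
# Groups acting on lattices with a shift of height three, and matrices of degree three

`C` is any class of groups with the closure properties `Closed C` which contains the groups acting
properly and cocompactly on simply connected triangle complexes of nonpositive curvature (these are
CAT(0) groups); all this is known for the class of the groups that satisfy the A-theoretic
Farrell–Jones Conjecture with coefficients and finite wreath products (Enkelmann, Lück, Pieper,
Ullmann, Winges).

A shift is an automorphism `σ` of an ordered set `A` with suprema such that `x < σ x` for all `x`, any two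
elements are comparable up to powers of `σ`, and the chains from `x` to `σ x` have at most three steps.
The typical example is the set of the lattices in a space of dimension three over a field (or a division
ring) with a discrete valuation; the triangle complex which belongs to `A` is then the Bruhat–Tits
building. The complex is simply connected, and it has nonpositive curvature. It is not locally finite in
general, and the groups which are considered here do not act cocompactly.

The conclusion for matrix groups over division rings `D` (part 2) includes the groups `GL_3(R)`, where
`R` is a subring of `D` in which all nonzero elements have value at least one, and only finitely many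
elements have bounded value (part 3): `R` may be the ring of functions on an affine variety over a finite
field with irreducible boundary at infinity, or a noncommutative ring with a degree function, like the
Weyl algebras, the universal enveloping algebras of Lie algebras of finite dimension and the free
associative algebras over finite fields. Part 4 is the case of the polynomial rings.

In part 5 the ordered set is a group `G`, and the shift is the right multiplication by `δ`. For example, `G`
can be the Artin group of a Coxeter group of rank three and `δ` the lift of a Coxeter element, with the
order given by the dual monoid, and `f` the length (the lattice property is a theorem of Delucchi,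
Paolini and Salvetti).
-/

set_option autoImplicit false

namespace Pool.Agent.K9h35.Full.TwoDimensionalBuildings

open WithZero
open Pool.Agent.Y462.SS (Closed)
open Pool.Agent.K9h35.TB (IsShift HasCAT0Triangle)

/-- Let `C` be a class of groups with the closure properties `Closed C` which contains the groups acting
properly and cocompactly on simply connected triangle complexes of nonpositive curvature.

1. Let `σ` be a shift of an ordered set `A` with suprema. Then `C` contains all groups `Γ` of
   automorphisms of `A` which commute with `σ`, such that for each `x` in `A` only finitely many elements
   of `Γ` map `x` to one of the `σ ^ k x`.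
2. Let `v` be a discrete valuation of a division ring `D`. Then `C` contains all groups `Γ` with a
   homomorphism to `GL_3(D)` such that each `ρ γ` has an entry of value at least one, and for each `c`
   there are only finitely many `γ` such that all entries of `ρ γ` have values at most `exp c`.
3. Let `R` be a ring with a homomorphism to `D` such that the nonzero elements have values at least one,
   and only finitely many have values at most `exp c`, for each `c`. Then `GL_3(R)` is in `C`.
4. `GL_3(K[X_i, i ∈ I])` is in `C` for each algebraic extension `K` of a finite field and each set `I`.
5. Let `G` be a group with a left invariant order with suprema, such that the right multiplication by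
   `δ` is a shift. Then the kernel of each homomorphism `f` from `G` to `ℤ` with `f δ ≠ 0` is in `C`. -/
theorem full (C : ∀ (G : Type) [Group G], Prop) (hC : Closed C) (htri : HasCAT0Triangle C) :
    (∀ (A : Type) [SemilatticeSup A] [Nonempty A] (σ : A ≃o A), IsShift σ →
      ∀ (Γ : Type) [Group Γ] [MulAction Γ A], (∀ (g : Γ) (x y : A), x ≤ y → g • x ≤ g • y) →
        (∀ (g : Γ) (x : A), g • σ x = σ (g • x)) →
        (∀ x : A, {g : Γ | ∃ k : ℤ, g • x = (σ ^ k) x}.Finite) → C Γ) ∧
    (∀ (D : Type) [DivisionRing D] (v : Valuation D ℤᵐ⁰) (π : D), v π = exp (-1) →
      (∀ (Γ : Type) [Group Γ] (ρ : Γ →* (Matrix (Fin 3) (Fin 3) D)ˣ),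
        (∀ γ : Γ, ∃ i j, 1 ≤ v ((ρ γ : Matrix (Fin 3) (Fin 3) D) i j)) →
        (∀ c : ℤ, {γ : Γ | ∀ i j, v ((ρ γ : Matrix (Fin 3) (Fin 3) D) i j) ≤ exp c}.Finite) →
        C Γ) ∧
      ∀ (R : Type) [Ring R] (i : R →+* D), (∀ r : R, r ≠ 0 → 1 ≤ v (i r)) →
        (∀ c : ℤ, {r : R | v (i r) ≤ exp c}.Finite) → C (Matrix (Fin 3) (Fin 3) R)ˣ) ∧
    (∀ (k K : Type) [Field k] [Finite k] [Field K] [Algebra k K] [Algebra.IsAlgebraic k K] (I : Type),
      C (GL (Fin 3) (MvPolynomial I K))) ∧
    (∀ (G : Type) [Group G] [SemilatticeSup G] (δ : G) (σ : G ≃o G),
      (∀ g x y : G, x ≤ y → g * x ≤ g * y) → (∀ x : G, σ x = x * δ) → IsShift σ →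
      ∀ f : G →* Multiplicative ℤ, f δ ≠ 1 → C f.ker) := by
  refine ⟨?_, ?_, ?_, ?_⟩
  · intro A _ _ σ hσ Γ _ _ hmono hcomm hst
    exact Pool.Agent.K9h35.TB.shift_main hC htri hσ hmono hcomm hst
  · intro D _ v π hπ
    refine ⟨?_, ?_⟩
    · intro Γ _ ρ h1 hfin
      exact Pool.Agent.K9h35.TB.mat_main hC htri v π hπ Γ ρ h1 hfin
    · intro R _ i hR hfin
      exact Pool.Agent.K9h35.TB.ring_main hC htri v π hπ R i hR hfin
  · intro k K _ _ _ _ _ I
    exact Pool.Agent.K9h35.TB.mvpoly_alg hC htri k K I
  · intro G _ _ δ σ hleft hδ hsh f hf
    exact Pool.Agent.K9h35.TB.kernel_main hC htri hleft δ σ hδ hsh f hf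

end Pool.Agent.K9h35.Full.TwoDimensionalBuildings
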