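import Pool.Agent.K9h35.MZ.Equiv

/-!
# The universal Mazur-Tate element and congruences between twisted `L`-values

`W` is a Weierstrass equation over `ℤ` of an elliptic curve `E`, `p` a prime, `Ω ≠ 0`. `Fld W p`
(`Pool.Agent.X252.MT`) are the abelian fields `F` of `p`-power degree with squarefree conductor `m_F`,
with good reduction and `p ∤ #E(𝔽_q)` at the primes `q ∣ m_F`; `F` is given by its group of characters
`F.X` and the set `F.T` of the primes `q ∣ m_F`. `θ F` is the Mazur-Tate element: an element of the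
group ring of the Galois group `G` over the rational numbers with denominators prime to `p`, with the
values `χ (θ F) = τ_m(χ) L_S(E, χ⁻¹, 1) / Ω` (`IsTheta`), where `S` consists of the bad primes and of
the primes dividing `m_F`. `I` is the augmentation ideal of the group ring.

For `q ∣ m_F` let `φ_q ∈ G` be the Frobenius of `q` which is trivial on the part ramified at `q`
(`lift`), and `N_F = ∏ (a_q - q φ_q - φ_q⁻¹)` (`NF`), the product over `q ∣ m_F`.

(1) `N_F` is a unit, and the elements `w_F = m_F θ_F / N_F` are exactly compatible: the restriction of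
`w_F` to a subfield `F'` is `w_{F'}`. So all Mazur-Tate elements are explicit units times the images of
one element `w` of the inverse limit of the group rings.
(2) `θ_F ∈ I ^ k` if and only if `w_F ∈ I ^ k`.
(3) The leading term formula for `F` is equivalent to `w_F ≡ c R_F` modulo `I ^ (r + 1)`, `R_F` the
regulator, with `c` independent of `F`: the Euler factors have disappeared.
(4) The values `B(χ) = χ(w_F)` depend only on `χ`: if `m` is the conductor of `χ` then
`B(χ) = m τ_m(χ) L(E, χ⁻¹, 1) / (Ω ∏ (a_q - q φ_q(χ) - φ_q(χ)⁻¹))`, the product over `q ∣ m`.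
(5) `∑_S (-1)^(m - |S|) B(ψ ∏_{i ∈ S} χ_i)`, the sum over the subsets `S` of `{1, ..., m}`, is divisible
by `(ζ - 1) ^ m` in `Z_(p)[ζ]`, `ζ = exp (2πi / p^n)`, for all characters `ψ, χ_1, ..., χ_m` of order
dividing `p ^ n`, with any conductors. For `m = 1` this is a well known congruence.
(6) Modulo `(ζ - 1) ^ (k + 1)` the values are explicit combinations of those with at most `k` ramified
primes: if `T` is the set of the primes dividing the conductor of `χ` and `k < |T|` then `B(χ)` is
congruent to `∑_s (-1)^(k - |s|) binom(|T| - |s| - 1, k - |s|) B(χ_s)`, the sum over the subsets `s` of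
`T` with `|s| ≤ k`, `χ_s` the part of `χ` ramified at `s`.
(7) For the fields of exponent `p` the conjecture is equivalent to explicit congruences for the values:
`θ_F ∈ I ^ (k + 1)` for all these `F` if and only if `B(1) = 0` and `B(χ)` is divisible by
`(ζ - 1) ^ (k + 1)`, `ζ = exp (2πi / p)`, for all `χ` of order `p` with at most `k` ramified primes; and
the leading term formula holds for all these `F` if and only if it holds for `F = ℚ` and
`B(χ) ≡ c det(χ(h_ij) - 1)` modulo `(ζ - 1) ^ (r + 1)` for all `χ` of order `p` with at most `r` ramified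
primes.

Proof. An element of the group ring of a finite `p`-group over a local ring whose residue
characteristic is `p` is a unit if its augmentation is a unit. By the restriction relation for the
Mazur-Tate elements the Euler factor at a prime `q` of `F.T` not in `F'.T` is the restriction of
`a_q - q φ_q - φ_q⁻¹`. The iterated differences of `χ ↦ χ(w)` are the values of
`∑ a_σ ψ(σ) ∏ (χ_i(σ) - 1)`. (6) follows from (5) by Moebius inversion, (7) from the detection of the
powers of `I` by the values, for groups of exponent `p`.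
-/

set_option autoImplicit false

namespace Pool.Agent.K9h35.Full.UniversalElement

open Pool.Agent.X252.MT Pool.Agent.K9h35.MZ

section generic

variable {A : Type} [CommRing A] {G H : Type} [CommGroup G] [CommGroup H]

/-- the element `a - q σ - σ⁻¹` of the group ring -/
noncomputable def eulerElement (A : Type) [CommRing A] {G : Type} [CommGroup G] (a : ℤ) (q : ℕ)
    (σ : G) : MonoidAlgebra A G :=
  (a : MonoidAlgebra A G) - (q : MonoidAlgebra A G) * MonoidAlgebra.of A G σ -
    MonoidAlgebra.of A G σ⁻¹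

/-- `m z = N w` and `N` is a unit -/
def UnitMultiple (m : ℕ) (z N w : MonoidAlgebra A G) : Prop :=
  (m : MonoidAlgebra A G) * z = N * w ∧ IsUnit N

/-- `z'` is the image of `z` -/
def Restricts (φ : G →* H) (z : MonoidAlgebra A G) (z' : MonoidAlgebra A H) : Prop :=
  mp A φ z = z'

/-- `z ≡ c det (h_ij - 1)` modulo `I ^ (r + 1)` -/
def HasLead {r : ℕ} (c : A) (h : Fin r → Fin r → G) (z : MonoidAlgebra A G) : Prop :=
  InPow (r + 1) (z - algebraMap A (MonoidAlgebra A G) c * rdet A h)

/-- the value of `z` at the character `χ` -/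
noncomputable def value {A : Subring ℂ} {X : Type} [CommGroup X] (z : MonoidAlgebra A (Du X))
    (χ : X) : ℂ := z.coeff.sum fun σ a => (a : ℂ) * (σ χ : ℂ)

end generic

variable {W : WeierstrassCurve ℤ} {p : ℕ}

/-- `N_F`, the product of the `a_q - q φ_q - φ_q⁻¹`, `q ∈ F.T` -/
noncomputable def NF (hp : p.Prime) (F : Fld W p) : MonoidAlgebra (Zp p hp) (Du F.X) :=
  ∏ q ∈ F.T, eulerElement (Zp p hp) (al W q) q (lift F q)

/-- `x = (ζ - 1) ^ k * y` with `y` in the ring generated by the rational numbers with denominators prime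
to `p` and `ζ = exp (2πi / p ^ n)` -/
def Divisible (hp : p.Prime) (n k : ℕ) (x : ℂ) : Prop :=
  ∃ y ∈ Subring.closure ((Zp p hp : Set ℂ) ∪ {Complex.exp (2 * Real.pi * Complex.I / (p ^ n : ℕ))}),
    x = (Complex.exp (2 * Real.pi * Complex.I / (p ^ n : ℕ)) - 1) ^ k * y

/-- the exponent of the group `F.X` (of the Galois group of `F`) divides `e` -/
def HasExp (F : Fld W p) (e : ℕ) : Prop := ∀ c ∈ F.X, c ^ e = 1

/-- **The universal element.** `m_F θ_F = N_F w_F` with units `N_F`, and the restriction of `w_F` to `F'`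
is `w_{F'}` for all subfields `F'` of `F`. -/
def IsUniversal (hp : p.Prime) (θ w : (F : Fld W p) → MonoidAlgebra (Zp p hp) (Du F.X)) : Prop :=
  (∀ F, UnitMultiple (∏ q ∈ F.T, q) (θ F) (NF hp F) (w F)) ∧
    ∀ (F F' : Fld W p) (hle : F'.X ≤ F.X), Restricts (rr hle) (w F) (w F')

/-- `θ_F` and `w_F` have the same order of vanishing. -/
def SameOrder (hp : p.Prime) (θ w : (F : Fld W p) → MonoidAlgebra (Zp p hp) (Du F.X)) : Prop :=
  ∀ (F : Fld W p) (k : ℕ), InPow k (θ F) ↔ InPow k (w F)

/-- The leading term formula for `θ_F` means `w_F ≡ c det (h_ij - 1)` modulo `I ^ (r + 1)`. -/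
def SameLeadingTerm (hp : p.Prime) (θ w : (F : Fld W p) → MonoidAlgebra (Zp p hp) (Du F.X)) :
    Prop :=
  ∀ (F : Fld W p) (r : ℕ) (h : Fin r → Fin r → Du F.X) (c : Zp p hp),
    LT hp F h c (θ F) ↔ HasLead c h (w F)

/-- The value of `w_F` at `χ` is the normalised value `B(χ)` of the `L`-function. -/
def AreValues (hp : p.Prime) (Ω : ℂ) (w : (F : Fld W p) → MonoidAlgebra (Zp p hp) (Du F.X))
    (B : Fam → ℂ) : Prop :=
  ∀ (F : Fld W p) (χ : F.X), value (w F) χ = B χ ∧ ∀ b : ℂ, IsNormalised W Ω χ b ↔ b = B χ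

/-- **Congruences for the iterated differences of the normalised values.** -/
def Differences (W : WeierstrassCurve ℤ) (hp : p.Prime) (B : Fam → ℂ) : Prop :=
  ∀ (n m : ℕ) (F : Fld W p), HasExp F (p ^ n) → ∀ (ψ : F.X) (χ : Fin m → F.X),
    Divisible hp n m (∑ S : Finset (Fin m), (-1) ^ (m - S.card) * B (ψ * ∏ i ∈ S, χ i : F.X))

/-- **The normalised values are determined by those with at most `k` ramified primes** modulo
`(ζ - 1) ^ (k + 1)`. -/
def FewPrimes (W : WeierstrassCurve ℤ) (hp : p.Prime) (B : Fam → ℂ) : Prop :=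
  ∀ (n k : ℕ) (F : Fld W p), HasExp F (p ^ n) → ∀ (χ : F.X) (T : Finset ℕ),
    (∀ q, q ∈ T ↔ (χ : Fam) q ≠ 1) → k < T.card →
    Divisible hp n (k + 1) (B χ - ∑ s ∈ T.powerset.filter (fun s => s.card ≤ k),
      (-1) ^ (k - s.card) * ((T.card - s.card - 1).choose (k - s.card) : ℕ) * B (cut s χ))

/-- **The order of vanishing for the fields of exponent `p`**, in terms of the normalised values of the
characters with at most `k` ramified primes. -/
def OrderCriterion (hp : p.Prime) (θ : (F : Fld W p) → MonoidAlgebra (Zp p hp) (Du F.X))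
    (B : Fam → ℂ) : Prop :=
  ∀ k : ℕ, (∀ F : Fld W p, HasExp F p → InPow (k + 1) (θ F)) ↔
    B 1 = 0 ∧ ∀ F : Fld W p, HasExp F p → F.T.card ≤ k → ∀ χ : F.X, Divisible hp 1 (k + 1) (B χ)

/-- **The leading term formula for the fields of exponent `p`**, in terms of the normalised values of the
characters with at most `r` ramified primes. -/
def LeadingTermCriterion (hp : p.Prime) (θ : (F : Fld W p) → MonoidAlgebra (Zp p hp) (Du F.X))
    (B : Fam → ℂ) : Prop :=
  ∀ (r : ℕ) (h : (F : Fld W p) → Fin r → Fin r → Du F.X), Compat W p h → ∀ c : Zp p hp,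
    ((∀ F : Fld W p, HasExp F p → LT hp F (h F) c (θ F)) ↔
      B 1 = (if r = 0 then (c : ℂ) else 0) ∧
      ∀ F : Fld W p, HasExp F p → F.T.card ≤ r → ∀ χ : F.X,
        Divisible hp 1 (r + 1) (B χ - c * Matrix.det (Matrix.of fun i j => (h F i j χ : ℂ) - 1)))

theorem result (W : WeierstrassCurve ℤ) (p : ℕ) (hp : p.Prime) (Ω : ℂ) (hΩ : Ω ≠ 0)
    (θ : (F : Fld W p) → MonoidAlgebra (Zp p hp) (Du F.X)) (hθ : ∀ F, IsTheta F Ω (θ F)) :
    ∃ (w : (F : Fld W p) → MonoidAlgebra (Zp p hp) (Du F.X)) (B : Fam → ℂ),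
      IsUniversal hp θ w ∧ SameOrder hp θ w ∧ SameLeadingTerm hp θ w ∧ AreValues hp Ω w B ∧
      Differences W hp B ∧ FewPrimes W hp B ∧ OrderCriterion hp θ B ∧
      LeadingTermCriterion hp θ B := by
  refine ⟨ww hp θ, BB hp θ, ⟨fun F => ⟨(NN_ww hp θ F).symm, NN_unit hp F⟩,
    fun F F' hle => res_ww hp hΩ hθ hle⟩, fun F k => mem_ww hp F k,
    fun F r h c => lt_ww hp F h c,
    fun F χ => ⟨(chi_eq χ (ww hp θ F)).symm.trans (BB_eq hp hΩ hθ F χ), fun b => ?_⟩, ?_, ?_,
    fun k => order_iff hp hΩ hθ k, fun r h hh c => lead_iff hp hΩ hθ r h hh c⟩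
  · rw [norm_iff hp hΩ hθ, BB_eq hp hΩ hθ]
  · intro n m F hF ψ χ
    have h1 := diff_PP hp (n := n) (fun x : F.X => Subtype.ext (hF x x.2)) (ww hp θ F) χ ψ
    simp only [BB_eq hp hΩ hθ] at h1
    exact h1
  · intro n k F hF χ T hT hk
    exact few_primes hp hΩ hθ F χ (hF χ χ.2) T hT hk

end Pool.Agent.K9h35.Full.UniversalElement
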