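import Pool.Agent.K9h35.MZ.Main

/-!
# Vanishing twisted `L`-values and the order of vanishing of the Mazur-Tate elements

`W` is a Weierstrass equation over `ℤ` of an elliptic curve `E`, `p` a prime, `Ω ≠ 0`. `Fld W p`
(`Pool.Agent.X252.MT`) are the abelian fields `F` of `p`-power degree with squarefree conductor `m_F`,
with good reduction and `p ∤ #E(𝔽_q)` at the primes `q ∣ m_F`; `F` is given by its group of characters
`F.X` and the set `F.T` of the primes `q ∣ m_F`. `θ F` is the Mazur-Tate element: an element of the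
group ring of the Galois group `G` over the rational numbers with denominators prime to `p`, with the
values `χ (θ F) = τ_m(χ) L_S(E, χ⁻¹, 1) / Ω` (`IsTheta`), where `S` consists of the bad primes and of
the primes dividing `m_F`. `I` is the augmentation ideal of the group ring.

The Mazur-Tate conjecture says that `θ F ∈ I ^ r`, `r` the rank of `E`, with a formula for the class in
`I ^ r / I ^ (r + 1)`. Here the order of vanishing is compared with the number of the characters `χ` of
`F` with `L(E, χ⁻¹, 1) ≠ 0`; let `nonvanishing F` be this number, and `π = ζ - 1`, `ζ = exp (2πi / p^n)`.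

(1) If `τ(χ₀) L(E, χ₀⁻¹, 1) ≠ 0` for one character `χ₀` then there is a `k` such that for ALL `F` of
exponent dividing `p ^ n` with `χ₀ ∈ F.X` at least `2 ^ (-k) |F.X|` of the values `L(E, χ⁻¹, 1)`,
`χ ∈ F.X`, are not zero.

(2) Every `k` such that `τ(χ₀) L_S(E, χ₀⁻¹, 1) / Ω` is not divisible by `π ^ (k + 1)` has this property,
and if moreover `k < p`, then at least `(1 - k / p) |F.X|` of the values are not zero.

(3) Let `L(E, 1) = 0` and `F` of exponent `p`. If less than `2 ^ (-k) |F.X|`, or, for `k < p`, less than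
`(1 - k / p) |F.X|` of the values `L(E, χ⁻¹, 1)` are not zero, then `θ F ∈ I ^ (k + 1)`. For instance,
`θ F ∈ I ^ 2` if more than `|F.X| / p` of the values vanish.

Proof. The differences of the function `χ ↦ χ(z)` on `F.X`, `z` in the group ring, are divisible by `π`,
because `χ ψ (σ) - χ (σ) = χ (σ) (ψ (σ) - 1)`; so modulo `π ^ (k + 1)` this function is polynomial
of degree at most `k` in the sense of iterated differences. A polynomial map of degree `k` between
abelian groups which is not zero is nonzero on a proportion at least `2 ^ (-k)`, and at least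
`1 - k / p` if `k < p` and if the target has no torsion prime to `p` (a lemma of Schwartz and Zippel without
a field: for a direction `h` let `g` be the last nonzero iterated difference; on every progression with
difference `h` on which `g ≠ 0` at most `deg` of `p` consecutive values vanish, by the determinant of
Vandermonde; then use induction for `g`). The values of the elements of different fields at a character
differ by the Euler factors `a_q - q χ(q) - χ(q)⁻¹ ≡ - #E(𝔽_q) mod π`, which are units. If `F` has the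
exponent `p` and `z ∈ I`, then `z ∈ I ^ (k + 1)` if (and only if) all the values are divisible by
`π ^ (k + 1)`.
-/

set_option autoImplicit false

namespace Pool.Agent.K9h35.Full.ZerosAndOrder

open Pool.Agent.X252.MT Pool.Agent.K9h35.MZ

/-- `x = (ζ - 1) ^ k * y` with `y` in the ring generated by the rational numbers with denominators prime
to `p` and `ζ = exp (2πi / p ^ n)` -/
def Divisible {p : ℕ} (hp : p.Prime) (n k : ℕ) (x : ℂ) : Prop :=
  ∃ y ∈ Subring.closure ((Zp p hp : Set ℂ) ∪ {Complex.exp (2 * Real.pi * Complex.I / (p ^ n : ℕ))}),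
    x = (Complex.exp (2 * Real.pi * Complex.I / (p ^ n : ℕ)) - 1) ^ k * y

/-- the number of the characters `χ` of `F` with `L(E, χ⁻¹, 1) ≠ 0` (the Euler factors at the primes of
bad reduction are omitted from `L`) -/
noncomputable def nonvanishing {W : WeierstrassCurve ℤ} {p : ℕ} (F : Fld W p) : ℕ :=
  Nat.card {χ : F.X // ∃ (T : Finset ℕ) (L : ℂ → ℂ), (∀ q, q ∈ T ↔ (χ : Fam) q ≠ 1) ∧
    IsL W T (χ⁻¹ : F.X) L ∧ L 1 ≠ 0}

/-- at least `2 ^ (-k) |F.X|` of the values `L(E, χ⁻¹, 1)`, `χ ∈ F.X`, are not zero -/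
def Many {W : WeierstrassCurve ℤ} {p : ℕ} (F : Fld W p) (k : ℕ) : Prop :=
  Nat.card F.X ≤ 2 ^ k * nonvanishing F

/-- at least `(1 - k / p) |F.X|` of the values `L(E, χ⁻¹, 1)`, `χ ∈ F.X`, are not zero -/
def Most {W : WeierstrassCurve ℤ} {p : ℕ} (F : Fld W p) (k : ℕ) : Prop :=
  (p - k) * Nat.card F.X ≤ p * nonvanishing F

/-- the exponent of the group `F.X` (of the Galois group of `F`) divides `e` -/
def HasExp {W : WeierstrassCurve ℤ} {p : ℕ} (F : Fld W p) (e : ℕ) : Prop :=
  ∀ c ∈ F.X, c ^ e = 1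

/-- `c` is a character of `F` and `v = τ_m(c) L_S(E, c⁻¹, 1)`, where `m` is the conductor of `F` -/
def IsValue {W : WeierstrassCurve ℤ} {p : ℕ} (F : Fld W p) (c : Fam) (v : ℂ) : Prop :=
  c ∈ F.X ∧ ∃ L : ℂ → ℂ, IsL W F.T c⁻¹ L ∧ v = tau F.T c * L 1

/-- **One nonzero value.** If `v = τ_m(c) L_S(E, c⁻¹, 1) ≠ 0` for one character `c` of a field of
exponent dividing `p ^ n`, then there is a `k` such that `Many F k` for all fields `F` of exponent dividing
`p ^ n` with the character `c`. -/
def OneNonzeroValue (W : WeierstrassCurve ℤ) (p : ℕ) : Prop :=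
  ∀ (n : ℕ) (F₀ : Fld W p) (c : Fam) (v : ℂ), HasExp F₀ (p ^ n) → IsValue F₀ c v → v ≠ 0 →
    ∃ k, ∀ F : Fld W p, HasExp F (p ^ n) → c ∈ F.X → Many F k

/-- **Explicit proportions.** If `v / Ω`, `v = τ_m(c) L_S(E, c⁻¹, 1)`, is not divisible by
`(ζ - 1) ^ (k + 1)`, `ζ = exp (2πi / p ^ n)`, then `Many F k`, and `Most F k` if `k < p`, for all
fields `F` of exponent dividing `p ^ n` with the character `c`. -/
def ExplicitProportions (W : WeierstrassCurve ℤ) {p : ℕ} (hp : p.Prime) (Ω : ℂ) : Prop :=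
  ∀ (n k : ℕ) (F₀ : Fld W p) (c : Fam) (v : ℂ), IsValue F₀ c v →
    ¬ Divisible hp n (k + 1) (v / Ω) →
    ∀ F : Fld W p, HasExp F (p ^ n) → c ∈ F.X → Many F k ∧ (k < p → Most F k)

/-- **Many zeros.** If `L(E, 1) = 0` and `F` has the exponent `p`, and if `Many F k` fails, or `k < p` and
`Most F k` fails, then `θ F ∈ I ^ (k + 1)`. -/
def ManyZeros (W : WeierstrassCurve ℤ) {p : ℕ} (hp : p.Prime)
    (θ : (F : Fld W p) → MonoidAlgebra (Zp p hp) (Du F.X)) : Prop :=
  ∀ L : ℂ → ℂ, IsL W ∅ 1 L → L 1 = 0 → ∀ (k : ℕ) (F : Fld W p), HasExp F p →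
    (¬ Many F k ∨ (k < p ∧ ¬ Most F k)) → InPow (k + 1) (θ F)

theorem result (W : WeierstrassCurve ℤ) (p : ℕ) (hp : p.Prime) (Ω : ℂ) (hΩ : Ω ≠ 0)
    (θ : (F : Fld W p) → MonoidAlgebra (Zp p hp) (Du F.X)) (hθ : ∀ F, IsTheta F Ω (θ F)) :
    OneNonzeroValue W p ∧ ExplicitProportions W hp Ω ∧ ManyZeros W hp θ := by
  refine ⟨?_, ?_, fun L hL h1 k F hF h => many_zeros hp hΩ hθ L hL h1 k F hF
    (h.imp not_le.1 fun h => ⟨h.1, not_le.1 h.2⟩)⟩
  · rintro n F₀ c v hF ⟨hc, L, hL, rfl⟩ h
    obtain ⟨k, hk⟩ := value_val hp hΩ hθ F₀ hF ⟨c, hc⟩ L hL h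
    exact ⟨k, fun F hF' hχ => (one_value hp hΩ hθ F₀ ⟨c, hc⟩ L hL hk F hF' hχ).1⟩
  · rintro n k F₀ c v ⟨hc, L, hL, rfl⟩ h F hF hχ
    exact one_value hp hΩ hθ F₀ ⟨c, hc⟩ L hL h F hF hχ

end Pool.Agent.K9h35.Full.ZerosAndOrder
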